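import Pool.Agent.H84.Unc.Defs

/-!
# UNC2, module N8: from the box to the body
-/

set_option autoImplicit false

open MeasureTheory Set Filter Topology

namespace Pool.Agent.H84.Unc

open Pool.Agent.H84

namespace N8

variable {n : ℕ}

/-- Box coordinates to body coordinates. -/
noncomputable def zz (x : Fin n → ℝ) : EuclideanSpace ℝ (Fin n) := WithLp.toLp 2 (fun i => zc i x)

theorem gt_zz (φ : ℝ) (x : Fin n → ℝ) : gt φ (zz x) = ∏ i, (1 + tf φ i x) := rfl

theorem one_add_tanh_pos (u : ℝ) : 0 < 1 + Real.tanh u := by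
  have h := Real.neg_one_lt_tanh u
  linarith

theorem exp_UU (W : (Fin n → ℝ) → ℝ) (φ : ℝ) (x : Fin n → ℝ) :
    Real.exp (-(UU W φ x)) = gt φ (zz x) * Real.exp (-W x) := by
  rw [gt_zz]
  unfold UU
  rw [neg_sub, Real.exp_sub, Real.exp_sum, Real.exp_neg, div_eq_mul_inv]
  congr 1
  exact Finset.prod_congr rfl fun i _ => Real.exp_log (one_add_tanh_pos _)

theorem norm_sq_dual (L : EuclideanSpace ℝ (Fin n) →L[ℝ] ℝ) :
    ‖L‖ ^ 2 = ∑ i, (L (EuclideanSpace.single i 1)) ^ 2 := by
  set v := (InnerProductSpace.toDual ℝ (EuclideanSpace ℝ (Fin n))).symm L with hv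
  have h1 : ‖L‖ = ‖v‖ := by rw [hv, LinearIsometryEquiv.norm_map]
  have h2 : ∀ y, L y = inner ℝ v y := by
    intro y
    rw [hv, InnerProductSpace.toDual_symm_apply]
  rw [h1, EuclideanSpace.norm_sq_eq]
  refine Finset.sum_congr rfl fun i _ => ?_
  rw [h2, EuclideanSpace.inner_single_right]
  simp

theorem hasFDerivAt_zz (x : Fin n → ℝ) :
    HasFDerivAt (zz (n := n)) ((PiLp.continuousLinearEquiv 2 ℝ (fun _ : Fin n => ℝ)).symm :
      (Fin n → ℝ) →L[ℝ] EuclideanSpace ℝ (Fin n)) x := by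
  have h := ((PiLp.continuousLinearEquiv 2 ℝ (fun _ : Fin n => ℝ)).symm.hasFDerivAt
    (x := x - fun _ => Real.pi / 2)).comp x ((hasFDerivAt_id x).sub_const (fun _ => Real.pi / 2))
  exact h

theorem contDiff_zz : ContDiff ℝ 1 (zz (n := n)) := by
  have h : (zz (n := n)) = (fun x => (PiLp.continuousLinearEquiv 2 ℝ (fun _ : Fin n => ℝ)).symm
    (x - fun _ => Real.pi / 2)) := rfl
  rw [h]
  fun_prop

theorem gsq_zz {f : EuclideanSpace ℝ (Fin n) → ℝ} (hf : ContDiff ℝ 1 f) (x : Fin n → ℝ) :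
    gsq (fun y => f (zz y)) x = ‖fderiv ℝ f (zz x)‖ ^ 2 := by
  have hd : HasFDerivAt (fun y => f (zz y)) ((fderiv ℝ f (zz x)).comp
      ((PiLp.continuousLinearEquiv 2 ℝ (fun _ : Fin n => ℝ)).symm :
      (Fin n → ℝ) →L[ℝ] EuclideanSpace ℝ (Fin n))) x :=
    ((hf.differentiable one_ne_zero (zz x)).hasFDerivAt).comp x (hasFDerivAt_zz x)
  rw [norm_sq_dual]
  unfold gsq pd
  rw [hd.fderiv]
  rfl

theorem continuous_tanh' : Continuous Real.tanh := by
  have h : Real.tanh = fun x => Real.sinh x / Real.cosh x := by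
    funext x
    exact Real.tanh_eq_sinh_div_cosh x
  rw [h]
  exact Real.continuous_sinh.div Real.continuous_cosh (fun x => (Real.cosh_pos x).ne')

theorem continuous_gt (φ : ℝ) : Continuous (gt (n := n) φ) := by
  unfold gt
  refine continuous_finsetProd _ fun i _ => ?_
  exact continuous_const.add (continuous_tanh'.comp (by fun_prop))

/-- The passage from the box to the body, in abstract form. -/
theorem body_tilt_aux {K : Set (EuclideanSpace ℝ (Fin n))}
    {V : ℕ → (Fin n → ℝ) → ℝ} {c : ℕ → ℝ} (hc : ∀ m, 0 < c m)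
    (htend : ∀ F : EuclideanSpace ℝ (Fin n) → ℝ, Continuous F →
      Tendsto (fun m => c m * ∫ x in QQ n, F (zz x) * Real.exp (-V m x)) atTop
        (𝓝 (∫ x in K, F x)))
    {φ M L : ℝ}
    (hmom : ∀ i, ∫ x in K, Real.exp (12 * φ * |x i|) < M * volume.real K)
    (hcore : ∀ m, (∀ i, ∫ x in QQ n, Real.exp (12 * φ * |zc i x|) * Real.exp (-V m x) ≤
      M * ∫ x in QQ n, Real.exp (-V m x)) → BoxPC (UU (V m) φ) L) :
    TiltPC K φ L := by
  -- the moment condition holds eventually
  have hone : Tendsto (fun m => c m * ∫ x in QQ n, Real.exp (-V m x)) atTop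
      (𝓝 (volume.real K)) := by
    have h := htend (fun _ => 1) continuous_const
    simpa using h
  have hmom' : ∀ i, ∀ᶠ m in atTop,
      ∫ x in QQ n, Real.exp (12 * φ * |zc i x|) * Real.exp (-V m x) ≤
      M * ∫ x in QQ n, Real.exp (-V m x) := by
    intro i
    have h1 := htend (fun x => Real.exp (12 * φ * |x i|)) (by fun_prop)
    have h2 := hone.const_mul M
    filter_upwards [h1.eventually_lt h2 (hmom i)] with m hm
    have h3 : c m * ∫ x in QQ n, Real.exp (12 * φ * |zc i x|) * Real.exp (-V m x) ≤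
        c m * (M * ∫ x in QQ n, Real.exp (-V m x)) := by
      rw [← mul_assoc, mul_comm (c m) M, mul_assoc]
      exact hm.le
    exact le_of_mul_le_mul_left h3 (hc m)
  have hev : ∀ᶠ m in atTop, BoxPC (UU (V m) φ) L := by
    filter_upwards [eventually_all.mpr hmom'] with m hm
    exact hcore m hm
  intro f hf
  have hgt := continuous_gt (n := n) φ
  have hfc := hf.continuous
  -- the four limits
  have t1 := htend (fun x => f x ^ 2 * gt φ x) (by fun_prop)
  have t2 := htend (fun x => gt φ x) hgt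
  have t3 := htend (fun x => f x * gt φ x) (by fun_prop)
  have t4 := htend (fun x => ‖fderiv ℝ f x‖ ^ 2 * gt φ x)
    ((((hf.continuous_fderiv one_ne_zero).norm).pow 2).mul hgt)
  refine le_of_tendsto_of_tendsto ((t1.mul t2).sub (t3.pow 2)) ((t4.mul t2).const_mul L) ?_
  filter_upwards [hev] with m hm
  have h := hm (fun x => f (zz x)) (hf.comp contDiff_zz)
  have e1 : ∫ x in QQ n, f (zz x) ^ 2 * Real.exp (-UU (V m) φ x) =
      ∫ x in QQ n, f (zz x) ^ 2 * gt φ (zz x) * Real.exp (-V m x) := by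
    simp only [exp_UU, mul_assoc]
  have e2 : ∫ x in QQ n, Real.exp (-UU (V m) φ x) =
      ∫ x in QQ n, gt φ (zz x) * Real.exp (-V m x) := by
    simp only [exp_UU]
  have e3 : ∫ x in QQ n, f (zz x) * Real.exp (-UU (V m) φ x) =
      ∫ x in QQ n, f (zz x) * gt φ (zz x) * Real.exp (-V m x) := by
    simp only [exp_UU, mul_assoc]
  have e4 : ∫ x in QQ n, gsq (fun y => f (zz y)) x * Real.exp (-UU (V m) φ x) =
      ∫ x in QQ n, ‖fderiv ℝ f (zz x)‖ ^ 2 * gt φ (zz x) * Real.exp (-V m x) := by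
    simp only [exp_UU, gsq_zz hf, mul_assoc]
  rw [e1, e2, e3, e4] at h
  have h5 := mul_le_mul_of_nonneg_left h (sq_nonneg (c m))
  refine le_trans (le_of_eq ?_) (h5.trans (le_of_eq ?_))
  · ring
  · ring

end N8

end Pool.Agent.H84.Unc
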