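import Pool.Agent.H84.Unc.Defs
import Pool.Agent.H84.PrekopaLeindler

/-!
# UNC2, module N10: exponential moments of one coordinate of an unconditional body
-/

set_option autoImplicit false

open MeasureTheory Set
open scoped ENNReal

namespace Pool.Agent.H84.Unc

open Pool.Agent.H84

namespace N10

variable {n : ℕ}

/-- The coordinate reflection as a linear isometry. -/
noncomputable def flipE (i : Fin n) :
    EuclideanSpace ℝ (Fin n) ≃ₗᵢ[ℝ] EuclideanSpace ℝ (Fin n) :=
  LinearIsometryEquiv.piLpCongrRight 2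
    (fun j => if j = i then LinearIsometryEquiv.neg ℝ else LinearIsometryEquiv.refl ℝ ℝ)

theorem flipE_apply (i : Fin n) (x : EuclideanSpace ℝ (Fin n)) : flipE i x = flip i x := by
  ext j
  unfold flipE flip
  by_cases h : j = i
  · subst h
    simp
  · simp [h]

theorem flipE_coord (i : Fin n) (x : EuclideanSpace ℝ (Fin n)) : flipE i x i = - (x i) := by
  rw [flipE_apply]
  simp [flip]

theorem flipE_flipE (i : Fin n) (x : EuclideanSpace ℝ (Fin n)) : flipE i (flipE i x) = x := by
  ext j
  unfold flipE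
  by_cases h : j = i
  · subst h
    simp
  · simp [h]

variable {K : Set (EuclideanSpace ℝ (Fin n))} {R : ℝ}

/-- The half of the body beyond height `t`. -/
noncomputable def hv (K : Set (EuclideanSpace ℝ (Fin n))) (i : Fin n) (t : ℝ) : ℝ :=
  volume.real (K ∩ {x | t ≤ x i})

theorem meas_half (hK : CB K R) (i : Fin n) (t : ℝ) : MeasurableSet (K ∩ {x | t ≤ x i}) :=
  hK.meas.inter (measurableSet_le measurable_const (by fun_prop))

theorem meas_half' (hK : CB K R) (i : Fin n) (t : ℝ) : MeasurableSet (K ∩ {x | t ≤ - x i}) :=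
  hK.meas.inter (measurableSet_le measurable_const (by fun_prop))

theorem half_ne_top (hK : CB K R) (S : Set (EuclideanSpace ℝ (Fin n))) :
    volume (K ∩ S) ≠ ⊤ :=
  ((measure_mono inter_subset_left).trans_lt hK.lt_top).ne

theorem hv_neg (hK : CB K R) (hinv : RInv K) (i : Fin n) (t : ℝ) :
    volume.real (K ∩ {x | t ≤ - x i}) = hv K i t := by
  unfold hv
  have h1 : (flipE i) ⁻¹' (K ∩ {x | t ≤ x i}) = K ∩ {x | t ≤ - x i} := by
    ext x
    simp only [mem_preimage, mem_inter_iff, mem_ofPred_eq, flipE_coord]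
    constructor
    · rintro ⟨h, h'⟩
      refine ⟨?_, h'⟩
      have := hinv i _ h
      rw [← flipE_apply, flipE_flipE] at this
      exact this
    · rintro ⟨h, h'⟩
      exact ⟨by rw [flipE_apply]; exact hinv i _ h, h'⟩
  rw [← h1]
  unfold Measure.real
  rw [(flipE i).measurePreserving.measure_preimage (meas_half hK i t).nullMeasurableSet]

theorem abs_union (i : Fin n) (t : ℝ) :
    K ∩ {x | t ≤ |x i|} = (K ∩ {x | t ≤ x i}) ∪ (K ∩ {x | t ≤ - x i}) := by
  ext x
  simp only [mem_inter_iff, mem_ofPred_eq, mem_union, le_abs]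
  tauto

theorem abs_le_two (hK : CB K R) (hinv : RInv K) (i : Fin n) (t : ℝ) :
    volume.real (K ∩ {x | t ≤ |x i|}) ≤ 2 * hv K i t := by
  rw [abs_union]
  refine (measureReal_union_le _ _).trans ?_
  rw [hv_neg hK hinv, hv]
  linarith

theorem abs_eq_two (hK : CB K R) (hinv : RInv K) (i : Fin n) {t : ℝ} (ht : 0 < t) :
    volume.real (K ∩ {x | t ≤ |x i|}) = 2 * hv K i t := by
  rw [abs_union, measureReal_union _ (meas_half' hK i t) (half_ne_top hK _) (half_ne_top hK _),
    hv_neg hK hinv, hv]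
  · ring
  · rw [Set.disjoint_left]
    rintro x ⟨_, h1⟩ ⟨_, h2⟩
    simp only [mem_ofPred_eq] at h1 h2
    linarith

theorem hv_pl (hK : CB K R) (i : Fin n) (t t' : ℝ) :
    hv K i t * hv K i t' ≤ hv K i ((t + t') / 2) ^ 2 := by
  have h := pl_inner (EuclideanSpace ℝ (Fin n)) ((K ∩ {x | t ≤ x i}).indicator 1)
    ((K ∩ {x | t' ≤ x i}).indicator 1) ((K ∩ {x | (t + t') / 2 ≤ x i}).indicator 1)
    (measurable_one.indicator (meas_half hK i t)) (measurable_one.indicator (meas_half hK i t'))
    (measurable_one.indicator (meas_half hK i _)) ?_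
  · rw [lintegral_indicator_one (meas_half hK i t), lintegral_indicator_one (meas_half hK i t'),
      lintegral_indicator_one (meas_half hK i _)] at h
    unfold hv Measure.real
    rw [← ENNReal.toReal_mul, ← ENNReal.toReal_pow]
    exact ENNReal.toReal_mono (ENNReal.pow_ne_top (half_ne_top hK _)) h
  · intro x y
    by_cases hx : x ∈ K ∩ {x | t ≤ x i}
    · by_cases hy : y ∈ K ∩ {x | t' ≤ x i}
      · have hxy : (2:ℝ)⁻¹ • (x + y) ∈ K ∩ {x | (t + t') / 2 ≤ x i} := by
          refine ⟨?_, ?_⟩
          · have := hK.conv hx.1 hy.1 (by norm_num : (0:ℝ) ≤ 2⁻¹) (by norm_num : (0:ℝ) ≤ 2⁻¹)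
              (by norm_num)
            rwa [smul_add]
          · have h1 : t ≤ x i := hx.2
            have h2 : t' ≤ y i := hy.2
            simp only [mem_ofPred_eq, PiLp.smul_apply, PiLp.add_apply, smul_eq_mul]
            linarith
        rw [indicator_of_mem hx, indicator_of_mem hy, indicator_of_mem hxy]
        simp
      · simp [indicator_of_notMem hy]
    · simp [indicator_of_notMem hx]

theorem hv_nonneg (i : Fin n) (t : ℝ) : 0 ≤ hv K i t := measureReal_nonneg

theorem hv_cheb (hK : CB K R) (hinv : RInv K) (i : Fin n) {s : ℝ} (hs : 0 < s)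
    (hm : ∫ x in K, (x i) ^ 2 ≤ s ^ 2 * volume.real K) :
    hv K i (2 * s) ≤ volume.real K / 8 := by
  have hint : IntegrableOn (fun x : EuclideanSpace ℝ (Fin n) => (x i) ^ 2) K := by
    have : IntegrableOn (fun x : EuclideanSpace ℝ (Fin n) => (x i) ^ 2)
        (Metric.closedBall (0 : EuclideanSpace ℝ (Fin n)) R) :=
      (Continuous.continuousOn (by fun_prop)).integrableOn_compact (isCompact_closedBall _ _)
    exact this.mono_set hK.sub
  have h2 : (2 * s) ^ 2 * volume.real (K ∩ {x | 2 * s ≤ |x i|}) ≤ ∫ x in K, (x i) ^ 2 := by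
    have hsub : K ∩ {x : EuclideanSpace ℝ (Fin n) | 2 * s ≤ |x i|} ⊆ K := inter_subset_left
    calc (2 * s) ^ 2 * volume.real (K ∩ {x | 2 * s ≤ |x i|})
        = ∫ x in K ∩ {x : EuclideanSpace ℝ (Fin n) | 2 * s ≤ |x i|}, (2 * s) ^ 2 := by
          rw [setIntegral_const, smul_eq_mul, mul_comm]
      _ ≤ ∫ x in K ∩ {x : EuclideanSpace ℝ (Fin n) | 2 * s ≤ |x i|}, (x i) ^ 2 := by
          apply setIntegral_mono_on
          · exact integrableOn_const (half_ne_top hK _)
          · exact hint.mono_set hsub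
          · exact hK.meas.inter (measurableSet_le measurable_const (by fun_prop))
          · intro x hx
            have h := hx.2
            simp only [mem_ofPred_eq] at h
            rw [← sq_abs (x i)]
            exact pow_le_pow_left₀ (by positivity) h 2
      _ ≤ ∫ x in K, (x i) ^ 2 :=
          setIntegral_mono_set hint (Filter.Eventually.of_forall fun x => sq_nonneg _)
            hsub.eventuallyLE
  rw [abs_eq_two hK hinv i (by positivity)] at h2
  have h3 : s ^ 2 * (8 * hv K i (2 * s)) ≤ s ^ 2 * volume.real K := by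
    calc s ^ 2 * (8 * hv K i (2 * s)) = (2 * s) ^ 2 * (2 * hv K i (2 * s)) := by ring
      _ ≤ _ := h2.trans hm
  have h4 := le_of_mul_le_mul_left h3 (by positivity)
  linarith

theorem vol_pos (hK : CB K R) : 0 < volume.real K := by
  unfold Measure.real
  exact ENNReal.toReal_pos hK.vol0 hK.lt_top.ne

theorem hv_zero (hK : CB K R) (hinv : RInv K) (i : Fin n) : volume.real K / 2 ≤ hv K i 0 := by
  have h := abs_le_two hK hinv i 0
  have h2 : K ∩ {x : EuclideanSpace ℝ (Fin n) | 0 ≤ |x i|} = K := by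
    ext x
    simp
  rw [h2] at h
  linarith

/-- Geometric decay: `V(2 (k+1) s) ≤ V(2 k s) / 4`. -/
theorem hv_step (hK : CB K R) (hinv : RInv K) (i : Fin n) {s : ℝ} (hs : 0 < s)
    (hm : ∫ x in K, (x i) ^ 2 ≤ s ^ 2 * volume.real K) (k : ℕ) :
    hv K i (2 * (k + 1 : ℕ) * s) ≤ hv K i (2 * k * s) / 4 := by
  induction k with
  | zero =>
    have h1 := hv_cheb hK hinv i hs hm
    have h2 := hv_zero hK hinv i
    simp only [zero_add, Nat.cast_one, mul_one, Nat.cast_zero, mul_zero, zero_mul]
    linarith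
  | succ k ih =>
    have h := hv_pl hK i (2 * (k + 1 + 1 : ℕ) * s) (2 * k * s)
    have e : (2 * ((k + 1 + 1 : ℕ) : ℝ) * s + 2 * k * s) / 2 = 2 * (k + 1 : ℕ) * s := by
      push_cast
      ring
    rw [e] at h
    set a := hv K i (2 * (k + 1 + 1 : ℕ) * s)
    set b := hv K i (2 * (k + 1 : ℕ) * s) with hb
    set c := hv K i (2 * k * s)
    have ha0 : 0 ≤ a := hv_nonneg i _
    have hb0 : 0 ≤ b := hv_nonneg i _
    have hc0 : 0 ≤ c := hv_nonneg i _
    -- a c ≤ b², b ≤ c/4
    by_cases hbz : b = 0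
    · -- monotone: a ≤ b
      have hab : a ≤ b := by
        apply measureReal_mono _ (half_ne_top hK _)
        rintro x ⟨hx, hx'⟩
        refine ⟨hx, ?_⟩
        simp only [mem_ofPred_eq] at hx' ⊢
        refine le_trans ?_ hx'
        push_cast
        nlinarith
      linarith
    · have hbp : 0 < b := lt_of_le_of_ne hb0 (Ne.symm hbz)
      have hcp : 0 < c := by linarith
      have h5 : a * c ≤ (b / 4) * c := by nlinarith
      exact le_of_mul_le_mul_right h5 hcp

theorem hv_geom (hK : CB K R) (hinv : RInv K) (i : Fin n) {s : ℝ} (hs : 0 < s)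
    (hm : ∫ x in K, (x i) ^ 2 ≤ s ^ 2 * volume.real K) (k : ℕ) :
    volume.real (K ∩ {x | 2 * k * s ≤ |x i|}) ≤ (1 / 4) ^ k * volume.real K := by
  rcases Nat.eq_zero_or_pos k with rfl | hk
  · simp only [pow_zero, one_mul]
    exact measureReal_mono inter_subset_left hK.lt_top.ne
  · obtain ⟨m, rfl⟩ : ∃ m, k = m + 1 := ⟨k - 1, by omega⟩
    refine (abs_le_two hK hinv i _).trans ?_
    have key : ∀ m : ℕ, 2 * hv K i (2 * (m + 1 : ℕ) * s) ≤ (1 / 4) ^ (m + 1) * volume.real K := by
      intro m
      induction m with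
      | zero =>
        have h1 := hv_cheb hK hinv i hs hm
        simp only [zero_add, Nat.cast_one, mul_one, pow_one]
        linarith
      | succ m ih =>
        have h2 := hv_step hK hinv i hs hm (m + 1)
        rw [pow_succ]
        linarith
    exact key m

end N10

open N10 in
/-- **N10.** Exponential moments. -/
theorem exp_moment {n : ℕ} {K : Set (EuclideanSpace ℝ (Fin n))} {R : ℝ} (hK : CB K R)
    (hinv : RInv K) (i : Fin n) {s : ℝ} (hs : 0 < s)
    (hm : ∫ x in K, (x i) ^ 2 ≤ s ^ 2 * volume.real K) :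
    ∫ x in K, Real.exp (|x i| / (2 * s)) < 9 * volume.real K := by
  obtain ⟨N, hN⟩ := exists_nat_ge (R / (2 * s))
  -- pointwise bound
  set A : ℕ → Set (EuclideanSpace ℝ (Fin n)) := fun k => {x | 2 * k * s ≤ |x i|} with hA
  have hAm : ∀ k, MeasurableSet (A k) := fun k =>
    measurableSet_le measurable_const (by fun_prop)
  have hR : ∀ x ∈ K, |x i| ≤ R := by
    intro x hx
    have h1 := hK.sub hx
    rw [mem_closedBall_zero_iff] at h1
    exact (Real.norm_eq_abs (x i) ▸ PiLp.norm_apply_le x i).trans h1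
  have hpt : ∀ x ∈ K, Real.exp (|x i| / (2 * s)) ≤
      ∑ k ∈ Finset.range (N + 1), (A k).indicator (fun _ => Real.exp ((k:ℝ) + 1)) x := by
    intro x hx
    set y := |x i| / (2 * s) with hy
    have hy0 : 0 ≤ y := by positivity
    set k := ⌊y⌋₊ with hk
    have hk1 : (k:ℝ) ≤ y := Nat.floor_le hy0
    have hk2 : y < k + 1 := Nat.lt_floor_add_one y
    have hkN : k ∈ Finset.range (N + 1) := by
      rw [Finset.mem_range]
      have h1 : y ≤ R / (2 * s) := by
        rw [hy]
        exact div_le_div_of_nonneg_right (hR x hx) (by positivity)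
      have h2 : (k:ℝ) ≤ N := hk1.trans (h1.trans hN)
      have h3 : k ≤ N := by exact_mod_cast h2
      omega
    have hmem : x ∈ A k := by
      simp only [hA, mem_ofPred_eq]
      rw [hy, le_div_iff₀ (by positivity)] at hk1
      linarith
    have h4 : Real.exp y ≤ (A k).indicator (fun _ => Real.exp ((k:ℝ) + 1)) x := by
      rw [indicator_of_mem hmem]
      exact Real.exp_le_exp.mpr hk2.le
    refine h4.trans ?_
    exact Finset.single_le_sum (f := fun k => (A k).indicator (fun _ => Real.exp ((k:ℝ) + 1)) x)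
      (fun j _ => indicator_nonneg (fun _ _ => (Real.exp_pos _).le) x) hkN
  have hfin : volume K ≠ ⊤ := hK.lt_top.ne
  have hindint : ∀ k : ℕ, IntegrableOn
      (fun x => (A k).indicator (fun _ => Real.exp ((k:ℝ) + 1)) x) K := by
    intro k
    exact (integrableOn_const (C := Real.exp ((k:ℝ) + 1)) hfin).indicator (hAm k)
  have h1 : ∫ x in K, Real.exp (|x i| / (2 * s)) ≤
      ∫ x in K, ∑ k ∈ Finset.range (N + 1), (A k).indicator (fun _ => Real.exp ((k:ℝ) + 1)) x := by
    apply setIntegral_mono_on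
    · have : IntegrableOn (fun x : EuclideanSpace ℝ (Fin n) => Real.exp (|x i| / (2 * s)))
          (Metric.closedBall (0 : EuclideanSpace ℝ (Fin n)) R) :=
        (Continuous.continuousOn (by fun_prop)).integrableOn_compact (isCompact_closedBall _ _)
      exact this.mono_set hK.sub
    · exact integrable_finsetSum _ (fun k _ => hindint k)
    · exact hK.meas
    · exact hpt
  have h2 : ∫ x in K, ∑ k ∈ Finset.range (N + 1), (A k).indicator
      (fun _ => Real.exp ((k:ℝ) + 1)) x =
      ∑ k ∈ Finset.range (N + 1), Real.exp ((k:ℝ) + 1) * volume.real (K ∩ A k) := by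
    rw [integral_finsetSum _ (fun k _ => hindint k)]
    refine Finset.sum_congr rfl fun k _ => ?_
    rw [setIntegral_indicator (hAm k), setIntegral_const, smul_eq_mul, mul_comm]
  have h3 : ∑ k ∈ Finset.range (N + 1), Real.exp ((k:ℝ) + 1) * volume.real (K ∩ A k) ≤
      (∑ k ∈ Finset.range (N + 1), Real.exp 1 * (Real.exp 1 / 4) ^ k) * volume.real K := by
    rw [Finset.sum_mul]
    refine Finset.sum_le_sum fun k _ => ?_
    have h := hv_geom hK hinv i hs hm k
    calc Real.exp ((k:ℝ) + 1) * volume.real (K ∩ A k)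
        ≤ Real.exp ((k:ℝ) + 1) * ((1 / 4) ^ k * volume.real K) :=
          mul_le_mul_of_nonneg_left h (Real.exp_pos _).le
      _ = Real.exp 1 * (Real.exp 1 / 4) ^ k * volume.real K := by
          rw [Real.exp_add, div_pow, div_pow, ← Real.exp_nat_mul]
          simp only [mul_one, one_pow]
          ring
  have h4 : ∑ k ∈ Finset.range (N + 1), Real.exp 1 * (Real.exp 1 / 4) ^ k < 9 := by
    rw [← Finset.mul_sum]
    have he1 : Real.exp 1 < 2.7182818286 := Real.exp_one_lt_d9
    have he0 : 0 < Real.exp 1 := Real.exp_pos 1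
    have hq0 : 0 ≤ Real.exp 1 / 4 := by positivity
    have hq1 : Real.exp 1 / 4 < 1 := by linarith
    have hs1 : ∑ k ∈ Finset.range (N + 1), (Real.exp 1 / 4) ^ k ≤ (1 - Real.exp 1 / 4)⁻¹ := by
      rw [← tsum_geometric_of_lt_one hq0 hq1]
      exact (summable_geometric_of_lt_one hq0 hq1).sum_le_tsum _ (fun _ _ => pow_nonneg hq0 _)
    have hs2 : (1 - Real.exp 1 / 4)⁻¹ < 9 / Real.exp 1 := by
      rw [inv_lt_comm₀ (by linarith) (by positivity), inv_div]
      linarith
    calc Real.exp 1 * ∑ k ∈ Finset.range (N + 1), (Real.exp 1 / 4) ^ k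
        ≤ Real.exp 1 * (1 - Real.exp 1 / 4)⁻¹ := mul_le_mul_of_nonneg_left hs1 he0.le
      _ < Real.exp 1 * (9 / Real.exp 1) := mul_lt_mul_of_pos_left hs2 he0
      _ = 9 := by field_simp
  calc ∫ x in K, Real.exp (|x i| / (2 * s)) ≤ _ := h1
    _ = _ := h2
    _ ≤ _ := h3
    _ < 9 * volume.real K := mul_lt_mul_of_pos_right h4 (vol_pos hK)

end Pool.Agent.H84.Unc
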